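import Mathlib

/-!
Project RS (MP_163b0f_co): the class `Av(2413, 3142, 12453, 14523, 35412)` has a rational
generating function. Trees encode separable permutations; `node true a b` is the sum `a ⊕ b`
(`a` below and to the left of `b`), `node false a b` is the skew sum `a ⊖ b` (`a` above and to the
left of `b`).
-/

set_option autoImplicit false

namespace Pool.Agent.T6.H5.RS

open PowerSeries

inductive T : Type
  | leaf : T
  | node : Bool → T → T → T
  deriving DecidableEq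

/-- number of leaves -/
def T.size : T → ℕ
  | .leaf => 1
  | .node _ a b => a.size + b.size

/-- the tree is a node with sign `s` -/
def T.IsN (s : Bool) : T → Prop
  | .leaf => False
  | .node s' _ _ => s' = s

/-- canonical trees: the left child of a node does not have the sign of the node -/
def T.Valid : T → Prop
  | .leaf => True
  | .node s a b => ¬ a.IsN s ∧ a.Valid ∧ b.Valid

/-- the value of the permutation at the position `i` -/
def T.val : T → ℕ → ℕ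
  | .leaf, _ => 0
  | .node true a b, i => if i < a.size then a.val i else a.size + b.val (i - a.size)
  | .node false a b, i => if i < a.size then b.size + a.val i else b.val (i - a.size)

/-! explicit containment of patterns in the word `v 0, …, v (n-1)` -/

def P12 (n : ℕ) (v : ℕ → ℕ) : Prop := ∃ i j, i < j ∧ j < n ∧ v i < v j
def P21 (n : ℕ) (v : ℕ → ℕ) : Prop := ∃ i j, i < j ∧ j < n ∧ v j < v i
def P132 (n : ℕ) (v : ℕ → ℕ) : Prop :=
  ∃ i j k, i < j ∧ j < k ∧ k < n ∧ v i < v k ∧ v k < v j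
def P231 (n : ℕ) (v : ℕ → ℕ) : Prop :=
  ∃ i j k, i < j ∧ j < k ∧ k < n ∧ v k < v i ∧ v i < v j
def P1342 (n : ℕ) (v : ℕ → ℕ) : Prop :=
  ∃ i j k l, i < j ∧ j < k ∧ k < l ∧ l < n ∧ v i < v l ∧ v l < v j ∧ v j < v k
def P3412 (n : ℕ) (v : ℕ → ℕ) : Prop :=
  ∃ i j k l, i < j ∧ j < k ∧ k < l ∧ l < n ∧ v k < v l ∧ v l < v i ∧ v i < v j
def P2413 (n : ℕ) (v : ℕ → ℕ) : Prop :=
  ∃ i j k l, i < j ∧ j < k ∧ k < l ∧ l < n ∧ v k < v i ∧ v i < v l ∧ v l < v j
def P3142 (n : ℕ) (v : ℕ → ℕ) : Prop :=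
  ∃ i j k l, i < j ∧ j < k ∧ k < l ∧ l < n ∧ v j < v l ∧ v l < v i ∧ v i < v k
/-- 12453 -/
def PA (n : ℕ) (v : ℕ → ℕ) : Prop :=
  ∃ i j k l m, i < j ∧ j < k ∧ k < l ∧ l < m ∧ m < n ∧ v i < v j ∧ v j < v m ∧ v m < v k ∧ v k < v l
/-- 14523 -/
def PB (n : ℕ) (v : ℕ → ℕ) : Prop :=
  ∃ i j k l m, i < j ∧ j < k ∧ k < l ∧ l < m ∧ m < n ∧ v i < v l ∧ v l < v m ∧ v m < v j ∧ v j < v k
/-- 35412 -/
def PD (n : ℕ) (v : ℕ → ℕ) : Prop :=
  ∃ i j k l m, i < j ∧ j < k ∧ k < l ∧ l < m ∧ m < n ∧ v l < v m ∧ v m < v i ∧ v i < v k ∧ v k < v j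

/-! the same by recursion on trees -/

def c12 : T → Prop
  | .leaf => False
  | .node true _ _ => True
  | .node false a b => c12 a ∨ c12 b
def c21 : T → Prop
  | .leaf => False
  | .node true a b => c21 a ∨ c21 b
  | .node false _ _ => True
def c132 : T → Prop
  | .leaf => False
  | .node true a b => c132 a ∨ c21 b
  | .node false a b => c132 a ∨ c132 b
def c231 : T → Prop
  | .leaf => False
  | .node true a b => c231 a ∨ c231 b
  | .node false a b => c12 a ∨ c231 b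
def c1342 : T → Prop
  | .leaf => False
  | .node true a b => c1342 a ∨ c231 b
  | .node false a b => c1342 a ∨ c1342 b
def c3412 : T → Prop
  | .leaf => False
  | .node true a b => c3412 a ∨ c3412 b
  | .node false a b => c3412 a ∨ c3412 b ∨ (c12 a ∧ c12 b)
def cA : T → Prop
  | .leaf => False
  | .node true a b => cA a ∨ (c12 a ∧ c231 b) ∨ c1342 b
  | .node false a b => cA a ∨ cA b
def cB : T → Prop
  | .leaf => False
  | .node true a b => cB a ∨ c3412 b
  | .node false a b => cB a ∨ cB b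
def cD : T → Prop
  | .leaf => False
  | .node true a b => cD a ∨ cD b
  | .node false a b => cD a ∨ cD b ∨ (c132 a ∧ c12 b)

/-- BND: `val` is a bijection of `[0, size)` -/
def StmBND : Prop := ∀ t : T, 0 < t.size ∧ (∀ i < t.size, t.val i < t.size) ∧
  (∀ i < t.size, ∀ j < t.size, t.val i = t.val j → i = j)

/-- PAT2: patterns of length 2 and 3 -/
def StmPAT2 : Prop := ∀ t : T, (P12 t.size t.val ↔ c12 t) ∧ (P21 t.size t.val ↔ c21 t)
def StmPAT3 : Prop := ∀ t : T, (P132 t.size t.val ↔ c132 t) ∧ (P231 t.size t.val ↔ c231 t)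
/-- PAT4: patterns of length 4 -/
def StmPAT4 : Prop := ∀ t : T, (P1342 t.size t.val ↔ c1342 t) ∧ (P3412 t.size t.val ↔ c3412 t)
/-- PATS: trees are separable -/
def StmPATS : Prop := ∀ t : T, ¬ P2413 t.size t.val ∧ ¬ P3142 t.size t.val
def StmPATA : Prop := ∀ t : T, (PA t.size t.val ↔ cA t)
def StmPATB : Prop := ∀ t : T, (PB t.size t.val ↔ cB t)
def StmPATD : Prop := ∀ t : T, (PD t.size t.val ↔ cD t)

/-- INJ: canonical trees are determined by the permutation -/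
def StmINJ : Prop := ∀ t t' : T, t.Valid → t'.Valid → t.size = t'.size →
  (∀ i < t.size, t.val i = t'.val i) → t = t'

/-- SPL: a separable permutation of length at least 2 is a sum or a skew sum -/
def StmSPL : Prop := ∀ (n : ℕ) (v : ℕ → ℕ), 2 ≤ n → (∀ i < n, v i < n) →
  (∀ i < n, ∀ j < n, v i = v j → i = j) → ¬ P2413 n v → ¬ P3142 n v →
  (∃ p, 0 < p ∧ p < n ∧ ∀ i < n, (i < p ↔ v i < p)) ∨
  (∃ p, 0 < p ∧ p < n ∧ ∀ i < n, (i < p ↔ n - p ≤ v i))

/-- SEP: a separable permutation comes from a canonical tree -/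
def StmSEP : Prop := ∀ (n : ℕ) (v : ℕ → ℕ), 1 ≤ n → (∀ i < n, v i < n) →
  (∀ i < n, ∀ j < n, v i = v j → i = j) → ¬ P2413 n v → ¬ P3142 n v →
  ∃ t : T, t.Valid ∧ t.size = n ∧ ∀ i < n, t.val i = v i

/-! generating functions of sets of canonical trees -/

/-- the generating function of the canonical trees with the property `p` -/
noncomputable def gf (p : T → Prop) : PowerSeries ℤ :=
  PowerSeries.mk fun n => (Nat.card {t : T // t.Valid ∧ p t ∧ t.size = n} : ℤ)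

/-- GFB: basic rules -/
def StmGFB : Prop :=
  (∀ n, Finite {t : T // t.size = n}) ∧
  (∀ p q : T → Prop, (∀ t : T, t.Valid → (p t ↔ q t)) → gf p = gf q) ∧
  (∀ p q : T → Prop, (∀ t : T, t.Valid → ¬ (p t ∧ q t)) → gf (fun t => p t ∨ q t) = gf p + gf q) ∧
  (gf (fun t => t = T.leaf) = X)

/-- GFN: nodes -/
def StmGFN : Prop := ∀ (s : Bool) (p q : T → Prop),
  gf (fun t => ∃ a b, t = T.node s a b ∧ p a ∧ q b) = gf (fun t => ¬ t.IsN s ∧ p t) * gf q

/-- EQ1: decreasing and increasing permutations; 231-avoiding permutations -/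
def StmEQ1 : Prop :=
  gf (fun t => ¬ c12 t) = X + X * gf (fun t => ¬ c12 t) ∧
  gf (fun t => ¬ c21 t) = X + X * gf (fun t => ¬ c21 t) ∧
  gf (fun t => ¬ t.IsN true ∧ ¬ c231 t) = X + X * gf (fun t => ¬ c231 t) ∧
  gf (fun t => ¬ c231 t) = gf (fun t => ¬ t.IsN true ∧ ¬ c231 t) +
    gf (fun t => ¬ t.IsN true ∧ ¬ c231 t) * gf (fun t => ¬ c231 t)

/-- EQ2: 132-avoiding permutations -/
def StmEQ2 : Prop :=
  gf (fun t => ¬ t.IsN false ∧ ¬ c132 t) =
    X + gf (fun t => ¬ t.IsN true ∧ ¬ c132 t) * gf (fun t => ¬ c21 t) ∧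
  gf (fun t => ¬ t.IsN true ∧ ¬ c132 t) =
    X + gf (fun t => ¬ t.IsN false ∧ ¬ c132 t) * gf (fun t => ¬ c132 t) ∧
  gf (fun t => ¬ c132 t) = gf (fun t => ¬ t.IsN false ∧ ¬ c132 t) +
    gf (fun t => ¬ t.IsN false ∧ ¬ c132 t) * gf (fun t => ¬ c132 t)

/-- the class `E = Av(2413, 3142, 1342, 3412)` -/
def inE (t : T) : Prop := ¬ c1342 t ∧ ¬ c3412 t

/-- EQ3: the class `E` -/
def StmEQ3 : Prop :=
  gf inE = X + gf (fun t => t.IsN true ∧ inE t) + gf (fun t => t.IsN false ∧ inE t) ∧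
  gf (fun t => t.IsN true ∧ inE t) =
    (X + gf (fun t => t.IsN false ∧ inE t)) * gf (fun t => ¬ c231 t) ∧
  gf (fun t => t.IsN false ∧ inE t) =
    X * gf inE + gf (fun t => t.IsN true ∧ inE t) * gf (fun t => ¬ c12 t)

/-- the class `C = Av(2413, 3142, 12453, 14523, 35412)` -/
def inC (t : T) : Prop := ¬ cA t ∧ ¬ cB t ∧ ¬ cD t

/-- EQ4: the class `C` -/
def StmEQ4 : Prop :=
  gf inC = X + gf (fun t => t.IsN true ∧ inC t) + gf (fun t => t.IsN false ∧ inC t) ∧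
  gf (fun t => t.IsN true ∧ inC t) =
    (X + gf (fun t => t.IsN false ∧ inC t)) * gf (fun t => ¬ c231 t) +
      gf (fun t => ¬ c12 t) * (gf inE - gf (fun t => ¬ c231 t)) ∧
  gf (fun t => t.IsN false ∧ inC t) =
    gf (fun t => ¬ t.IsN false ∧ ¬ c132 t) * gf inC +
      (X + gf (fun t => t.IsN true ∧ inC t) - gf (fun t => ¬ t.IsN false ∧ ¬ c132 t)) *
        gf (fun t => ¬ c12 t)

/-- ALG: elimination -/
def StmALG : Prop := ∀ L Z Y YK YI e eS eQ F S Q : PowerSeries ℤ,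
  L = X + X * L → Z = (X + X * Z) + (X + X * Z) * Z →
  YK = X + YI * L → YI = X + YK * Y → Y = YK + YK * Y →
  e = X + eS + eQ → eS = (X + eQ) * Z → eQ = X * e + eS * L →
  F = X + S + Q → S = (X + Q) * Z + L * (e - Z) → Q = YK * F + (X + S - YK) * L →
  (1 - 6 * X + 9 * X ^ 2 - 5 * X ^ 3 + X ^ 4) * (1 + F) = 1 - 5 * X + 5 * X ^ 2 - 2 * X ^ 3

/-- CNT: the generating function of the class (nonempty permutations) -/
def StmCNT : Prop :=
  (1 - 6 * X + 9 * X ^ 2 - 5 * X ^ 3 + X ^ 4) * (1 + gf inC) =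
    (1 - 5 * X + 5 * X ^ 2 - 2 * X ^ 3 : PowerSeries ℤ)

/-! permutations of `Fin n` -/

/-- `π` contains the pattern `w` (a word with distinct letters) -/
def Contains {n k : ℕ} (π : Equiv.Perm (Fin n)) (w : Fin k → ℕ) : Prop :=
  ∃ f : Fin k ↪o Fin n, ∀ i j, w i < w j ↔ π (f i) < π (f j)

/-- the permutation as a function on the natural numbers -/
def ev {n : ℕ} (π : Equiv.Perm (Fin n)) (i : ℕ) : ℕ := if h : i < n then (π ⟨i, h⟩ : ℕ) else 0

/-- LNK: containment in explicit form -/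
def StmLNK : Prop := ∀ (n : ℕ) (π : Equiv.Perm (Fin n)),
  (Contains π ![2, 3, 1] ↔ P231 n (ev π)) ∧
  (Contains π ![2, 4, 1, 3] ↔ P2413 n (ev π)) ∧
  (Contains π ![3, 1, 4, 2] ↔ P3142 n (ev π))

def StmLNK5 : Prop := ∀ (n : ℕ) (π : Equiv.Perm (Fin n)),
  (Contains π ![1, 2, 4, 5, 3] ↔ PA n (ev π)) ∧
  (Contains π ![1, 4, 5, 2, 3] ↔ PB n (ev π)) ∧
  (Contains π ![3, 5, 4, 1, 2] ↔ PD n (ev π))

/-- the class -/
def Cls (n : ℕ) : Set (Equiv.Perm (Fin n)) :=
  {π | ¬ P2413 n (ev π) ∧ ¬ P3142 n (ev π) ∧ ¬ PA n (ev π) ∧ ¬ PB n (ev π) ∧ ¬ PD n (ev π)}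

/-- BIJ: permutations in the class and canonical trees -/
def StmBIJ : Prop := Nat.card (Cls 0) = 1 ∧ ∀ n, 1 ≤ n →
  Nat.card (Cls n) = Nat.card {t : T // t.Valid ∧ inC t ∧ t.size = n}

/-- CLO: closure and the inclusions -/
def StmCLO : Prop := ∀ (n k l : ℕ) (π : Equiv.Perm (Fin n)) (σ : Equiv.Perm (Fin k))
  (w : Fin l → ℕ), Contains π (fun i => (σ i : ℕ)) → Contains σ w → Contains π w

end Pool.Agent.T6.H5.RS
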