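import Mathlib
import Pool.Agent.T6.H5.RS.Defs

/-!
Project RS (MP_163b0f_co), module BIJ: permutations in the class and canonical trees.
-/

set_option autoImplicit false

namespace Pool.Agent.T6.H5.RS

namespace BIJ

theorem P2413_congr {n : ℕ} {v w : ℕ → ℕ} (h : ∀ i < n, v i = w i) : P2413 n v → P2413 n w := by
  rintro ⟨i, j, k, l, h1, h2, h3, h4, h5⟩
  refine ⟨i, j, k, l, h1, h2, h3, h4, ?_⟩
  rw [← h i (by omega), ← h j (by omega), ← h k (by omega), ← h l (by omega)]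
  exact h5

theorem P3142_congr {n : ℕ} {v w : ℕ → ℕ} (h : ∀ i < n, v i = w i) : P3142 n v → P3142 n w := by
  rintro ⟨i, j, k, l, h1, h2, h3, h4, h5⟩
  refine ⟨i, j, k, l, h1, h2, h3, h4, ?_⟩
  rw [← h i (by omega), ← h j (by omega), ← h k (by omega), ← h l (by omega)]
  exact h5

theorem PA_congr {n : ℕ} {v w : ℕ → ℕ} (h : ∀ i < n, v i = w i) : PA n v → PA n w := by
  rintro ⟨i, j, k, l, m, h1, h2, h3, h4, h5, h6⟩
  refine ⟨i, j, k, l, m, h1, h2, h3, h4, h5, ?_⟩
  rw [← h i (by omega), ← h j (by omega), ← h k (by omega), ← h l (by omega), ← h m (by omega)]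
  exact h6

theorem PB_congr {n : ℕ} {v w : ℕ → ℕ} (h : ∀ i < n, v i = w i) : PB n v → PB n w := by
  rintro ⟨i, j, k, l, m, h1, h2, h3, h4, h5, h6⟩
  refine ⟨i, j, k, l, m, h1, h2, h3, h4, h5, ?_⟩
  rw [← h i (by omega), ← h j (by omega), ← h k (by omega), ← h l (by omega), ← h m (by omega)]
  exact h6

theorem PD_congr {n : ℕ} {v w : ℕ → ℕ} (h : ∀ i < n, v i = w i) : PD n v → PD n w := by
  rintro ⟨i, j, k, l, m, h1, h2, h3, h4, h5, h6⟩
  refine ⟨i, j, k, l, m, h1, h2, h3, h4, h5, ?_⟩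
  rw [← h i (by omega), ← h j (by omega), ← h k (by omega), ← h l (by omega), ← h m (by omega)]
  exact h6

/-- The conditions of the class for a word. -/
def W (n : ℕ) (v : ℕ → ℕ) : Prop := ¬ P2413 n v ∧ ¬ P3142 n v ∧ ¬ PA n v ∧ ¬ PB n v ∧ ¬ PD n v

theorem W_congr {n : ℕ} {v w : ℕ → ℕ} (h : ∀ i < n, v i = w i) (hv : W n v) : W n w := by
  have h' : ∀ i < n, w i = v i := fun i hi => (h i hi).symm
  exact ⟨fun x => hv.1 (P2413_congr h' x), fun x => hv.2.1 (P3142_congr h' x),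
    fun x => hv.2.2.1 (PA_congr h' x), fun x => hv.2.2.2.1 (PB_congr h' x),
    fun x => hv.2.2.2.2 (PD_congr h' x)⟩

/-- The permutation of a tree. -/
noncomputable def perm (hB : StmBND) (n : ℕ) (t : T) (h : t.size = n) : Equiv.Perm (Fin n) :=
  Equiv.ofBijective (fun i : Fin n => (⟨t.val i, by
      have h1 := (hB t).2.1 i (by have := i.2; omega)
      omega⟩ : Fin n)) (by
    rw [← Finite.injective_iff_bijective]
    intro i j hij
    have h1 : t.val i = t.val j := congrArg Fin.val hij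
    exact Fin.ext ((hB t).2.2 i (by have := i.2; omega) j (by have := j.2; omega) h1))

theorem ev_perm (hB : StmBND) (n : ℕ) (t : T) (h : t.size = n) (i : ℕ) (hi : i < n) :
    ev (perm hB n t h) i = t.val i := by
  unfold ev
  rw [dif_pos hi]
  rfl

theorem W_iff (hS : StmPATS) (hA : StmPATA) (hb : StmPATB) (hD : StmPATD) (t : T) :
    W t.size t.val ↔ inC t := by
  unfold W inC
  rw [hA t, hb t, hD t]
  exact ⟨fun h => h.2.2, fun h => ⟨(hS t).1, (hS t).2, h⟩⟩

end BIJ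

open BIJ in
theorem bij (hB : StmBND) (hI : StmINJ) (hP : StmSEP) (hS : StmPATS) (hA : StmPATA) (hb : StmPATB)
    (hD : StmPATD) : StmBIJ := by
  refine ⟨?_, ?_⟩
  · rw [Nat.card_eq_one_iff_unique]
    refine ⟨⟨fun a b => Subtype.ext (Subsingleton.elim _ _)⟩, ⟨⟨1, ?_⟩⟩⟩
    refine ⟨?_, ?_, ?_, ?_, ?_⟩
    · rintro ⟨i, j, k, l, h⟩; omega
    · rintro ⟨i, j, k, l, h⟩; omega
    · rintro ⟨i, j, k, l, m, h⟩; omega
    · rintro ⟨i, j, k, l, m, h⟩; omega
    · rintro ⟨i, j, k, l, m, h⟩; omega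
  · intro n hn
    refine (Nat.card_congr (Equiv.ofBijective (fun t : {t : T // t.Valid ∧ inC t ∧ t.size = n} =>
      (⟨perm hB n t.1 t.2.2.2, ?_⟩ : Cls n)) ⟨?_, ?_⟩)).symm
    · have h1 : W t.1.size t.1.val := (W_iff hS hA hb hD t.1).2 t.2.2.1
      rw [t.2.2.2] at h1
      exact W_congr (fun i hi => (ev_perm hB n t.1 t.2.2.2 i hi).symm) h1
    · rintro ⟨t, ht, htC, htn⟩ ⟨t', ht', htC', htn'⟩ h
      have h1 : perm hB n t htn = perm hB n t' htn' := congrArg Subtype.val h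
      apply Subtype.ext
      refine hI t t' ht ht' (htn.trans htn'.symm) fun i hi => ?_
      have hi' : i < n := htn ▸ hi
      rw [← ev_perm hB n t htn i hi', ← ev_perm hB n t' htn' i hi', h1]
    · rintro ⟨π, hπ⟩
      have hev : ∀ i (hi : i < n), ev π i = (π ⟨i, hi⟩ : ℕ) := fun i hi => dif_pos hi
      obtain ⟨t, ht, htn, htv⟩ := hP n (ev π) hn
        (fun i hi => by rw [hev i hi]; exact (π ⟨i, hi⟩).2)
        (fun i hi j hj hij => by
          rw [hev i hi, hev j hj] at hij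
          have h1 := π.injective (Fin.ext hij)
          exact congrArg Fin.val h1) hπ.1 hπ.2.1
      have hC : inC t := by
        rw [← W_iff hS hA hb hD, htn]
        exact W_congr (fun i hi => (htv i hi).symm) hπ
      refine ⟨⟨t, ht, hC, htn⟩, ?_⟩
      apply Subtype.ext
      apply Equiv.ext
      intro i
      apply Fin.ext
      change t.val i = π i
      rw [htv i i.2, hev i i.2]

end Pool.Agent.T6.H5.RS
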