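import Mathlib
import Pool.Agent.T6.H5.RS.Defs

/-!
Project RS (MP_163b0f_co), module EQ3: the class `E`.
-/

set_option autoImplicit false

namespace Pool.Agent.T6.H5.RS

open PowerSeries

namespace EQ3

theorem c12_of_c3412 : ∀ t : T, c3412 t → c12 t
  | .leaf, h => h.elim
  | .node true _ _, _ => trivial
  | .node false a b, h => by
    rcases h with h | h | h
    · exact Or.inl (c12_of_c3412 a h)
    · exact Or.inr (c12_of_c3412 b h)
    · exact Or.inl h.1

theorem c12_of_c1342 : ∀ t : T, c1342 t → c12 t
  | .leaf, h => h.elim
  | .node true _ _, _ => trivial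
  | .node false a b, h => by
    rcases h with h | h
    · exact Or.inl (c12_of_c1342 a h)
    · exact Or.inr (c12_of_c1342 b h)

theorem c231_of_c3412 : ∀ t : T, c3412 t → c231 t
  | .leaf, h => h.elim
  | .node true a b, h => by
    rcases h with h | h
    · exact Or.inl (c231_of_c3412 a h)
    · exact Or.inr (c231_of_c3412 b h)
  | .node false a b, h => by
    rcases h with h | h | h
    · exact Or.inl (c12_of_c3412 a h)
    · exact Or.inr (c231_of_c3412 b h)
    · exact Or.inl h.1

theorem inE_leaf : inE T.leaf := ⟨fun h => h, fun h => h⟩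

theorem inE_true (a b : T) : inE (T.node true a b) ↔ inE a ∧ ¬ c231 b := by
  have h := c231_of_c3412 b
  simp only [inE, c1342, c3412]
  tauto

theorem inE_false (a b : T) (ha : ¬ a.IsN false) :
    inE (T.node false a b) ↔ (a = T.leaf ∧ inE b) ∨ ((a.IsN true ∧ inE a) ∧ ¬ c12 b) := by
  have h1 := c12_of_c3412 b
  have h2 := c12_of_c1342 b
  cases a with
  | leaf =>
    simp only [inE, c1342, c3412, c12, T.IsN]
    tauto
  | node s x y =>
    cases s with
    | false => exact absurd rfl ha
    | true =>
      simp only [inE, c1342, c3412, c12, T.IsN]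
      have : T.node true x y ≠ T.leaf := by simp
      tauto

end EQ3

open EQ3 in
theorem eq3 (hG : StmGFB) (hN : StmGFN) : StmEQ3 := by
  obtain ⟨-, hc, ha, hX⟩ := hG
  have hI : ∀ t : T, t = T.leaf ∨ t.IsN true ∨ t.IsN false := by
    intro t
    cases t with
    | leaf => exact Or.inl rfl
    | node s x y => cases s <;> simp [T.IsN]
  refine ⟨?_, ?_, ?_⟩
  · rw [← hX, ← ha, ← ha]
    · apply hc
      intro t _
      have h1 := hI t
      constructor
      · tauto
      · rintro ((h | h) | h)
        · rw [h]; exact inE_leaf
        · exact h.2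
        · exact h.2
    · intro t _
      cases t with
      | leaf => simp [T.IsN]
      | node s x y => cases s <;> simp [T.IsN]
    · intro t _
      cases t with
      | leaf => simp [T.IsN]
      | node s x y => cases s <;> simp [T.IsN]
  · rw [← hX, ← ha]
    · have h1 : gf (fun t => t = T.leaf ∨ (t.IsN false ∧ inE t)) =
          gf (fun t => ¬ t.IsN true ∧ inE t) := by
        apply hc
        intro t _
        cases t with
        | leaf => simp [T.IsN, inE_leaf]
        | node s x y => cases s <;> simp [T.IsN]
      rw [h1, ← hN]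
      apply hc
      intro t _
      constructor
      · rintro ⟨h2, h3⟩
        cases t with
        | leaf => exact h2.elim
        | node s x y =>
          cases s with
          | false => simp [T.IsN] at h2
          | true =>
            rw [inE_true] at h3
            exact ⟨x, y, rfl, h3.1, h3.2⟩
      · rintro ⟨x, y, rfl, h2, h3⟩
        exact ⟨rfl, (inE_true x y).2 ⟨h2, h3⟩⟩
    · intro t _
      cases t with
      | leaf => simp [T.IsN]
      | node s x y => cases s <;> simp [T.IsN]
  · have h1 : gf (fun t => ¬ t.IsN false ∧ t = T.leaf) = X := by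
      rw [← hX]
      apply hc
      intro t _
      cases t with
      | leaf => simp [T.IsN]
      | node s x y => cases s <;> simp [T.IsN]
    have h2 : gf (fun t => ¬ t.IsN false ∧ (t.IsN true ∧ inE t)) =
        gf (fun t => t.IsN true ∧ inE t) := by
      apply hc
      intro t _
      cases t with
      | leaf => simp [T.IsN]
      | node s x y => cases s <;> simp [T.IsN]
    have h3 := hN false (fun t => t = T.leaf) inE
    have h4 := hN false (fun t => t.IsN true ∧ inE t) (fun t => ¬ c12 t)
    rw [h1] at h3
    rw [h2] at h4
    rw [← h3, ← h4, ← ha]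
    · apply hc
      intro t ht
      constructor
      · rintro ⟨h5, h6⟩
        cases t with
        | leaf => exact h5.elim
        | node s x y =>
          cases s with
          | true => simp [T.IsN] at h5
          | false =>
            rcases (inE_false x y ht.1).1 h6 with h | h
            · exact Or.inl ⟨x, y, rfl, h.1, h.2⟩
            · exact Or.inr ⟨x, y, rfl, h.1, h.2⟩
      · rintro (⟨x, y, rfl, h5, h6⟩ | ⟨x, y, rfl, h5, h6⟩)
        · exact ⟨rfl, (inE_false x y ht.1).2 (Or.inl ⟨h5, h6⟩)⟩
        · exact ⟨rfl, (inE_false x y ht.1).2 (Or.inr ⟨h5, h6⟩)⟩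
    · rintro t _ ⟨⟨x, y, rfl, h5, h6⟩, ⟨x', y', h7, h8, h9⟩⟩
      rw [T.node.injEq] at h7
      rw [← h7.2.1, h5] at h8
      exact h8.1
  
end Pool.Agent.T6.H5.RS
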