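import Pool.Agent.T6.H5.RS.Defs

/-!
# RS, module GFB (MP_163b0f_co)
-/

set_option autoImplicit false

namespace Pool.Agent.T6.H5.RS.GFB

open Pool.Agent.T6.H5.RS PowerSeries

theorem size_pos : ∀ t : T, 0 < t.size
  | .leaf => Nat.one_pos
  | .node _ a b => Nat.add_pos_left (size_pos a) _

/-- the map from pairs of smaller trees to trees -/
def mk (n : ℕ) (y : Option (Bool × {t : T // t.size < n} × {t : T // t.size < n})) : T :=
  match y with
  | none => T.leaf
  | some (s, a, b) => T.node s a.1 b.1

theorem fin_lt (n : ℕ) : Finite {t : T // t.size < n} := by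
  induction n with
  | zero =>
    have : IsEmpty {t : T // t.size < 0} := ⟨fun t => absurd t.2 (Nat.not_lt_zero _)⟩
    infer_instance
  | succ n ih =>
    have h1 : (Set.range (mk n)).Finite := Set.finite_range _
    suffices h2 : {t : T | t.size < n + 1} ⊆ Set.range (mk n) from (h1.subset h2).to_subtype
    intro t ht
    cases t with
    | leaf => exact ⟨none, rfl⟩
    | node s a b =>
      have ha := size_pos a
      have hb := size_pos b
      have hab : a.size + b.size < n + 1 := ht
      exact ⟨some (s, ⟨a, by omega⟩, ⟨b, by omega⟩), rfl⟩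

theorem fin_eq (n : ℕ) : Finite {t : T // t.size = n} := by
  have := fin_lt (n + 1)
  exact Finite.of_injective
    (fun t : {t : T // t.size = n} => (⟨t.1, by rw [t.2]; exact Nat.lt_succ_self n⟩ :
      {t : T // t.size < n + 1})) (fun a b h => Subtype.ext (by simpa using h))

theorem fin_set (p : T → Prop) (n : ℕ) : {t : T | t.Valid ∧ p t ∧ t.size = n}.Finite := by
  have h0 : Finite {t : T | t.size = n} := fin_eq n
  have h1 : {t : T | t.size = n}.Finite := Set.toFinite _
  exact h1.subset fun t ht => ht.2.2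

theorem gfb : StmGFB := by
  refine ⟨fin_eq, ?_, ?_, ?_⟩
  · intro p q h
    ext n
    simp only [gf, coeff_mk]
    congr 1
    refine Nat.card_congr (Equiv.subtypeEquivRight fun t => ?_)
    constructor
    · rintro ⟨h1, h2, h3⟩
      exact ⟨h1, (h t h1).1 h2, h3⟩
    · rintro ⟨h1, h2, h3⟩
      exact ⟨h1, (h t h1).2 h2, h3⟩
  · intro p q h
    ext n
    rw [map_add]
    simp only [gf, coeff_mk]
    have e1 : Nat.card {t : T // t.Valid ∧ (p t ∨ q t) ∧ t.size = n} =
        {t : T | t.Valid ∧ (p t ∨ q t) ∧ t.size = n}.ncard := rfl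
    have e2 : Nat.card {t : T // t.Valid ∧ p t ∧ t.size = n} =
        {t : T | t.Valid ∧ p t ∧ t.size = n}.ncard := rfl
    have e3 : Nat.card {t : T // t.Valid ∧ q t ∧ t.size = n} =
        {t : T | t.Valid ∧ q t ∧ t.size = n}.ncard := rfl
    rw [e1, e2, e3, ← Nat.cast_add, ← Set.ncard_union_eq ?_ (fin_set p n) (fin_set q n)]
    · congr 2
      ext t
      simp only [Set.mem_ofPred_eq, Set.mem_union]
      tauto
    · rw [Set.disjoint_left]
      rintro t ⟨h1, h2, -⟩ ⟨-, h3, -⟩
      exact h t h1 ⟨h2, h3⟩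
  · ext n
    simp only [gf, coeff_mk]
    rw [coeff_X]
    split_ifs with hn
    · subst hn
      have : Unique {t : T // t.Valid ∧ t = T.leaf ∧ t.size = 1} :=
        { default := ⟨T.leaf, trivial, rfl, rfl⟩
          uniq := fun t => Subtype.ext t.2.2.1 }
      rw [Nat.card_unique]
      rfl
    · have : IsEmpty {t : T // t.Valid ∧ t = T.leaf ∧ t.size = n} := ⟨fun t => hn (by
        have h1 := t.2.2.1
        have h2 := t.2.2.2
        rw [h1] at h2
        exact h2.symm)⟩
      rw [Nat.card_of_isEmpty]
      rfl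

end Pool.Agent.T6.H5.RS.GFB
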