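import Pool.Agent.T6.H5.RS.Defs

/-!
# RS, module GFN (MP_163b0f_co)
-/

set_option autoImplicit false

namespace Pool.Agent.T6.H5.RS.GFN

open Pool.Agent.T6.H5.RS PowerSeries

/-- the type of canonical trees of size `n` with a property -/
abbrev Ty (p : T → Prop) (n : ℕ) : Type := {t : T // t.Valid ∧ p t ∧ t.size = n}

theorem finTy (hG : StmGFB) (p : T → Prop) (n : ℕ) : Finite (Ty p n) := by
  haveI := hG.1 n
  exact Finite.of_injective (fun t : Ty p n => (⟨t.1, t.2.2.2⟩ : {t : T // t.size = n}))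
    (fun a b h => Subtype.ext (by simpa using h))

/-- the map from pairs to nodes -/
def mk (s : Bool) (p q : T → Prop) (n : ℕ)
    (y : Σ x : {x // x ∈ Finset.HasAntidiagonal.antidiagonal n}, Ty (fun t => ¬ t.IsN s ∧ p t) x.1.1 × Ty q x.1.2) :
    Ty (fun t => ∃ a b, t = T.node s a b ∧ p a ∧ q b) n :=
  ⟨T.node s y.2.1.1 y.2.2.1, ⟨⟨y.2.1.2.2.1.1, y.2.1.2.1, y.2.2.2.1⟩,
    ⟨_, _, rfl, y.2.1.2.2.1.2, y.2.2.2.2.1⟩, by
      have h1 := y.2.1.2.2.2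
      have h2 := y.2.2.2.2.2
      have h3 := Finset.HasAntidiagonal.mem_antidiagonal.1 y.1.2
      show y.2.1.1.size + y.2.2.1.size = n
      rw [h1, h2, h3]⟩⟩

theorem mk_bij (s : Bool) (p q : T → Prop) (n : ℕ) : Function.Bijective (mk s p q n) := by
  constructor
  · rintro ⟨⟨⟨i, j⟩, hij⟩, ⟨a, ha⟩, ⟨b, hb⟩⟩ ⟨⟨⟨i', j'⟩, hij'⟩, ⟨a', ha'⟩, ⟨b', hb'⟩⟩ h
    have h1 := congrArg Subtype.val h
    simp only [mk, T.node.injEq, true_and] at h1
    obtain ⟨rfl, rfl⟩ := h1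
    have hi : i = i' := ha.2.2.symm.trans ha'.2.2
    have hj : j = j' := hb.2.2.symm.trans hb'.2.2
    subst hi
    subst hj
    rfl
  · rintro ⟨t, ht, ⟨a, b, rfl, hp, hq⟩, hn⟩
    exact ⟨⟨⟨(a.size, b.size), Finset.HasAntidiagonal.mem_antidiagonal.2 hn⟩, ⟨a, ht.2.1, ⟨ht.1, hp⟩, rfl⟩,
      ⟨b, ht.2.2, hq, rfl⟩⟩, rfl⟩

theorem gfn (hG : StmGFB) : StmGFN := by
  intro s p q
  ext n
  rw [coeff_mul]
  simp only [gf, coeff_mk]
  have h1 := Nat.card_congr (Equiv.ofBijective _ (mk_bij s p q n))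
  haveI : ∀ x : {x // x ∈ Finset.HasAntidiagonal.antidiagonal n},
      Finite (Ty (fun t => ¬ t.IsN s ∧ p t) x.1.1 × Ty q x.1.2) := fun x => by
    haveI := finTy hG (fun t => ¬ t.IsN s ∧ p t) x.1.1
    haveI := finTy hG q x.1.2
    infer_instance
  rw [Nat.card_sigma] at h1
  rw [← h1]
  push_cast
  rw [← Finset.sum_coe_sort (Finset.HasAntidiagonal.antidiagonal n)]
  refine Finset.sum_congr rfl fun x _ => ?_
  rw [Nat.card_prod]
  push_cast
  rfl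

end Pool.Agent.T6.H5.RS.GFN
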