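import Pool.Agent.T6.H5.RS.Defs

/-!
Project RS, module INJ: canonical trees are determined by the permutation.
-/

set_option autoImplicit false

namespace Pool.Agent.T6.H5.RS.INJ

open Pool.Agent.T6.H5.RS

/-- cut of kind `s` -/
def Cut (s : Bool) (n : ℕ) (v : ℕ → ℕ) (p : ℕ) : Prop :=
  0 < p ∧ p < n ∧ ∀ i < n, (i < p ↔ (if s = true then v i < p else n - p ≤ v i))

theorem cut_node (hB : StmBND) (s : Bool) (a b : T) :
    Cut s (T.node s a b).size (T.node s a b).val a.size := by
  obtain ⟨ha0, ha1, -⟩ := hB a
  obtain ⟨hb0, hb1, -⟩ := hB b
  refine ⟨ha0, by simp only [T.size]; omega, ?_⟩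
  intro i hi
  simp only [T.size] at hi ⊢
  cases s with
  | true =>
    simp only [T.val, if_true]
    by_cases h : i < a.size
    · have := ha1 i h
      simp [h, this]
    · simp [h]
  | false =>
    simp only [T.val, Bool.false_eq_true, if_false]
    by_cases h : i < a.size
    · have := ha1 i h
      simp only [h, if_true, true_iff]
      omega
    · have := hb1 (i - a.size) (by omega)
      simp only [h, if_false, false_iff]
      omega

theorem cut_unique {n : ℕ} {v : ℕ → ℕ} {p q : ℕ} (h1 : Cut true n v p) (h2 : Cut false n v q) :
    False := by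
  obtain ⟨hp0, hpn, hp⟩ := h1
  obtain ⟨hq0, hqn, hq⟩ := h2
  simp only [if_true] at hp
  simp only [Bool.false_eq_true, if_false] at hq
  have a1 := (hp 0 (by omega)).1 hp0
  have a2 := (hq 0 (by omega)).1 hq0
  have a3 : ¬ v (n - 1) < p := fun h => by
    have := (hp (n - 1) (by omega)).2 h
    omega
  have a4 : ¬ n - q ≤ v (n - 1) := fun h => by
    have := (hq (n - 1) (by omega)).2 h
    omega
  omega

theorem cut_ne {n : ℕ} {v : ℕ → ℕ} {p q : ℕ} {s s' : Bool} (h1 : Cut s n v p)
    (h2 : Cut s' n v q) : s = s' := by
  cases s <;> cases s'
  · rfl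
  · exact (cut_unique h2 h1).elim
  · exact (cut_unique h1 h2).elim
  · rfl

theorem no_cut (hB : StmBND) {s : Bool} {a : T} (ha : ¬ a.IsN s) {p : ℕ} :
    ¬ Cut s a.size a.val p := by
  intro h
  cases a with
  | leaf =>
    obtain ⟨h1, h2, -⟩ := h
    simp only [T.size] at h2
    omega
  | node s' a b =>
    have := cut_ne (cut_node hB s' a b) h
    exact ha this

theorem cut_left {s : Bool} {a b : T} {p : ℕ} (hp : p < a.size)
    (h : Cut s (T.node s a b).size (T.node s a b).val p) : Cut s a.size a.val p := by
  obtain ⟨h0, h1, h2⟩ := h
  refine ⟨h0, hp, ?_⟩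
  intro i hi
  have := h2 i (by simp only [T.size]; omega)
  cases s with
  | true =>
    simp only [T.val, if_true, hi] at this ⊢
    exact this
  | false =>
    simp only [T.val, T.size, Bool.false_eq_true, if_false, hi, if_true] at this ⊢
    rw [this]
    omega

theorem size_le (hB : StmBND) {s : Bool} {a b : T} (ha : ¬ a.IsN s) {p : ℕ}
    (h : Cut s (T.node s a b).size (T.node s a b).val p) : a.size ≤ p := by
  by_contra hlt
  exact no_cut hB ha (cut_left (by omega) h)

theorem cut_congr {s : Bool} {n m : ℕ} {v w : ℕ → ℕ} {p : ℕ} (hnm : n = m)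
    (hvw : ∀ i < n, v i = w i) (h : Cut s m w p) : Cut s n v p := by
  subst hnm
  obtain ⟨h0, h1, h2⟩ := h
  refine ⟨h0, h1, fun i hi => ?_⟩
  rw [hvw i hi]
  exact h2 i hi

theorem inj (hB : StmBND) : StmINJ := by
  intro t
  induction t with
  | leaf =>
    intro t' _ _ hs _
    cases t' with
    | leaf => rfl
    | node s a b =>
      have ha := (hB a).1
      have hb := (hB b).1
      simp only [T.size] at hs
      omega
  | node s a b iha ihb =>
    intro t' hv hv' hs hval
    cases t' with
    | leaf =>
      have ha := (hB a).1
      have hb := (hB b).1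
      simp only [T.size] at hs
      omega
    | node s' a' b' =>
      have c1 := cut_node hB s a b
      have c2' := cut_node hB s' a' b'
      have c2 := cut_congr hs hval c2'
      have c1' : Cut s (T.node s' a' b').size (T.node s' a' b').val a.size :=
        cut_congr hs.symm (fun i hi => (hval i (by rw [hs]; exact hi)).symm) c1
      obtain rfl : s = s' := cut_ne c1 c2
      have e1 : a.size ≤ a'.size := size_le hB hv.1 c2
      have e2 : a'.size ≤ a.size := size_le hB hv'.1 c1'
      have e : a.size = a'.size := le_antisymm e1 e2
      have eb : b.size = b'.size := by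
        simp only [T.size] at hs
        omega
      have ea : a = a' := by
        apply iha a' hv.2.1 hv'.2.1 e
        intro i hi
        have h := hval i (by simp only [T.size]; omega)
        cases s with
        | true =>
          simp only [T.val, if_pos hi, if_pos (lt_of_lt_of_le hi e1)] at h
          exact h
        | false =>
          simp only [T.val, if_pos hi, if_pos (lt_of_lt_of_le hi e1)] at h
          omega
      have eb' : b = b' := by
        apply ihb b' hv.2.2 hv'.2.2 eb
        intro i hi
        have h := hval (i + a.size) (by simp only [T.size]; omega)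
        have n1 : ¬ (i + a.size < a.size) := by omega
        have n2 : ¬ (i + a.size < a'.size) := by omega
        have n3 : i + a.size - a'.size = i := by omega
        cases s with
        | true =>
          simp only [T.val, if_neg n1, if_neg n2, n3, Nat.add_sub_cancel] at h
          omega
        | false =>
          simp only [T.val, if_neg n1, if_neg n2, n3, Nat.add_sub_cancel] at h
          exact h
      rw [ea, eb']

end Pool.Agent.T6.H5.RS.INJ
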