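import Pool.Agent.T6.H5.RS.Defs

set_option autoImplicit false

namespace Pool.Agent.T6.H5.RS.LNK5

open Pool.Agent.T6.H5.RS

theorem ev_lt {n : ℕ} (π : Equiv.Perm (Fin n)) (x : Fin n) : ev π (x : ℕ) = (π x : ℕ) := by
  simp [ev, x.2]

theorem ev_mk {n : ℕ} (π : Equiv.Perm (Fin n)) (x : ℕ) (h : x < n) :
    ev π x = (π ⟨x, h⟩ : ℕ) := by
  simp [ev, h]

/-- general form of containment of a pattern of length 5 -/
theorem contains5 (n : ℕ) (π : Equiv.Perm (Fin n)) (w : Fin 5 → ℕ) :
    Contains π w ↔ ∃ i j k l m, i < j ∧ j < k ∧ k < l ∧ l < m ∧ m < n ∧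
      ∀ a b : Fin 5, w a < w b ↔ ev π (![i, j, k, l, m] a) < ev π (![i, j, k, l, m] b) := by
  constructor
  · rintro ⟨f, hf⟩
    have hm : ∀ a b : Fin 5, a < b → (f a : ℕ) < (f b : ℕ) := by
      intro a b hab
      have : f a < f b := f.lt_iff_lt.2 hab
      exact this
    refine ⟨f 0, f 1, f 2, f 3, f 4, hm _ _ (by decide), hm _ _ (by decide), hm _ _ (by decide),
      hm _ _ (by decide), (f 4).2, ?_⟩
    have key : ∀ a : Fin 5, ev π (![(f 0 : ℕ), f 1, f 2, f 3, f 4] a) = (π (f a) : ℕ) := by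
      intro a
      have : (![(f 0 : ℕ), f 1, f 2, f 3, f 4] a) = (f a : ℕ) := by
        fin_cases a <;> rfl
      rw [this, ev_lt]
    intro a b
    rw [key, key, hf a b]
    exact Iff.rfl
  · rintro ⟨i, j, k, l, m, h1, h2, h3, h4, h5, h⟩
    have hlt : ∀ a : Fin 5, (![i, j, k, l, m] a) < n := by
      intro a
      fin_cases a
      · show i < n; omega
      · show j < n; omega
      · show k < n; omega
      · show l < n; omega
      · show m < n; omega
    have hs : StrictMono (fun a : Fin 5 => (⟨![i, j, k, l, m] a, hlt a⟩ : Fin n)) := by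
      rw [Fin.strictMono_iff_lt_succ]
      intro a
      fin_cases a
      · exact h1
      · exact h2
      · exact h3
      · exact h4
    refine ⟨OrderEmbedding.ofStrictMono _ hs, ?_⟩
    intro a b
    rw [h a b]
    rw [ev_mk π _ (hlt a), ev_mk π _ (hlt b)]
    exact Iff.rfl

theorem lnk5 : StmLNK5 := by
  intro n π
  refine ⟨?_, ?_, ?_⟩
  · rw [contains5]
    constructor
    · rintro ⟨i, j, k, l, m, h1, h2, h3, h4, h5, h⟩
      have a1 := (h 0 1).1 (by decide)
      have a2 := (h 1 4).1 (by decide)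
      have a3 := (h 4 2).1 (by decide)
      have a4 := (h 2 3).1 (by decide)
      exact ⟨i, j, k, l, m, h1, h2, h3, h4, h5, a1, a2, a3, a4⟩
    · rintro ⟨i, j, k, l, m, h1, h2, h3, h4, h5, a1, a2, a3, a4⟩
      refine ⟨i, j, k, l, m, h1, h2, h3, h4, h5, ?_⟩
      intro a b
      fin_cases a <;> fin_cases b <;> simp <;> omega
  · rw [contains5]
    constructor
    · rintro ⟨i, j, k, l, m, h1, h2, h3, h4, h5, h⟩
      have a1 := (h 0 3).1 (by decide)
      have a2 := (h 3 4).1 (by decide)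
      have a3 := (h 4 1).1 (by decide)
      have a4 := (h 1 2).1 (by decide)
      exact ⟨i, j, k, l, m, h1, h2, h3, h4, h5, a1, a2, a3, a4⟩
    · rintro ⟨i, j, k, l, m, h1, h2, h3, h4, h5, a1, a2, a3, a4⟩
      refine ⟨i, j, k, l, m, h1, h2, h3, h4, h5, ?_⟩
      intro a b
      fin_cases a <;> fin_cases b <;> simp <;> omega
  · rw [contains5]
    constructor
    · rintro ⟨i, j, k, l, m, h1, h2, h3, h4, h5, h⟩
      have a1 := (h 3 4).1 (by decide)
      have a2 := (h 4 0).1 (by decide)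
      have a3 := (h 0 2).1 (by decide)
      have a4 := (h 2 1).1 (by decide)
      exact ⟨i, j, k, l, m, h1, h2, h3, h4, h5, a1, a2, a3, a4⟩
    · rintro ⟨i, j, k, l, m, h1, h2, h3, h4, h5, a1, a2, a3, a4⟩
      refine ⟨i, j, k, l, m, h1, h2, h3, h4, h5, ?_⟩
      intro a b
      fin_cases a <;> fin_cases b <;> simp <;> omega

end Pool.Agent.T6.H5.RS.LNK5
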