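import Pool.Agent.T6.H5.RS.Defs

/-!
# RS, module PAT4 (MP_163b0f_co)
-/

set_option autoImplicit false

namespace Pool.Agent.T6.H5.RS.PAT4

open Pool.Agent.T6.H5.RS

variable {a b : T} {i : ℕ}

theorem vt1 (h : i < a.size) : (T.node true a b).val i = a.val i := if_pos h
theorem vt2 (h : a.size ≤ i) : (T.node true a b).val i = a.size + b.val (i - a.size) :=
  if_neg (not_lt.2 h)
theorem vf1 (h : i < a.size) : (T.node false a b).val i = b.size + a.val i := if_pos h
theorem vf2 (h : a.size ≤ i) : (T.node false a b).val i = b.val (i - a.size) :=
  if_neg (not_lt.2 h)

theorem sz (s : Bool) : (T.node s a b).size = a.size + b.size := rfl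

theorem pat4 (hB : StmBND) (h2 : StmPAT2) (h3 : StmPAT3) : StmPAT4 := by
  intro t
  induction t with
  | leaf =>
    constructor
    · constructor
      · rintro ⟨i, j, k, l, h⟩
        have : T.leaf.size = 1 := rfl
        omega
      · exact fun h => h.elim
    · constructor
      · rintro ⟨i, j, k, l, h⟩
        have : T.leaf.size = 1 := rfl
        omega
      · exact fun h => h.elim
  | node s a b iha ihb =>
    have ba := (hB a).2.1
    have bb := (hB b).2.1
    have pa := (hB a).1
    have pb := (hB b).1
    cases s with
    | true =>
      constructor
      · show _ ↔ (c1342 a ∨ c231 b)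
        rw [← iha.1, ← (h3 b).2]
        constructor
        · rintro ⟨i, j, k, l, hij, hjk, hkl, hl, e1, e2, e3⟩
          rw [sz] at hl
          rcases lt_or_ge l a.size with h | h
          · left
            rw [vt1 (i := i) (by omega), vt1 h] at e1
            rw [vt1 h, vt1 (i := j) (by omega)] at e2
            rw [vt1 (i := j) (by omega), vt1 (i := k) (by omega)] at e3
            exact ⟨i, j, k, l, hij, hjk, hkl, h, e1, e2, e3⟩
          · right
            have hj : a.size ≤ j := by
              by_contra hj
              rw [vt2 h, vt1 (not_le.1 hj)] at e2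
              have := ba j (not_le.1 hj)
              omega
            rw [vt2 h, vt2 hj] at e2
            rw [vt2 hj, vt2 (i := k) (by omega)] at e3
            exact ⟨j - a.size, k - a.size, l - a.size, by omega, by omega, by omega,
              by omega, by omega⟩
        · rintro (⟨i, j, k, l, hij, hjk, hkl, hl, e1, e2, e3⟩ | ⟨j, k, l, hjk, hkl, hl, e2, e3⟩)
          · refine ⟨i, j, k, l, hij, hjk, hkl, by rw [sz]; omega, ?_, ?_, ?_⟩
            · rwa [vt1 (i := i) (by omega), vt1 hl]
            · rwa [vt1 hl, vt1 (i := j) (by omega)]
            · rwa [vt1 (i := j) (by omega), vt1 (i := k) (by omega)]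
          · have h0 := ba 0 pa
            refine ⟨0, a.size + j, a.size + k, a.size + l, by omega, by omega, by omega,
              by rw [sz]; omega, ?_, ?_, ?_⟩
            · rw [vt1 pa, vt2 (Nat.le_add_right _ _)]
              omega
            · rw [vt2 (Nat.le_add_right _ _), vt2 (Nat.le_add_right _ _), Nat.add_sub_cancel_left,
                Nat.add_sub_cancel_left]
              omega
            · rw [vt2 (Nat.le_add_right _ _), vt2 (Nat.le_add_right _ _), Nat.add_sub_cancel_left,
                Nat.add_sub_cancel_left]
              omega
      · show _ ↔ (c3412 a ∨ c3412 b)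
        rw [← iha.2, ← ihb.2]
        constructor
        · rintro ⟨i, j, k, l, hij, hjk, hkl, hl, e1, e2, e3⟩
          rw [sz] at hl
          rcases lt_or_ge i a.size with h | h
          · left
            have hl' : l < a.size := by
              by_contra hl'
              rw [vt2 (not_lt.1 hl'), vt1 h] at e2
              have := ba i h
              omega
            rw [vt1 (i := k) (by omega), vt1 hl'] at e1
            rw [vt1 hl', vt1 h] at e2
            rw [vt1 h, vt1 (i := j) (by omega)] at e3
            exact ⟨i, j, k, l, hij, hjk, hkl, hl', e1, e2, e3⟩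
          · right
            rw [vt2 (i := k) (by omega), vt2 (i := l) (by omega)] at e1
            rw [vt2 (i := l) (by omega), vt2 h] at e2
            rw [vt2 h, vt2 (i := j) (by omega)] at e3
            exact ⟨i - a.size, j - a.size, k - a.size, l - a.size, by omega, by omega, by omega,
              by omega, by omega, by omega, by omega⟩
        · rintro (⟨i, j, k, l, hij, hjk, hkl, hl, e1, e2, e3⟩ |
            ⟨i, j, k, l, hij, hjk, hkl, hl, e1, e2, e3⟩)
          · refine ⟨i, j, k, l, hij, hjk, hkl, by rw [sz]; omega, ?_, ?_, ?_⟩
            · rwa [vt1 (i := k) (by omega), vt1 hl]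
            · rwa [vt1 hl, vt1 (i := i) (by omega)]
            · rwa [vt1 (i := i) (by omega), vt1 (i := j) (by omega)]
          · refine ⟨a.size + i, a.size + j, a.size + k, a.size + l, by omega, by omega, by omega,
              by rw [sz]; omega, ?_, ?_, ?_⟩ <;>
            · rw [vt2 (Nat.le_add_right _ _), vt2 (Nat.le_add_right _ _), Nat.add_sub_cancel_left,
                Nat.add_sub_cancel_left]
              omega
    | false =>
      constructor
      · show _ ↔ (c1342 a ∨ c1342 b)
        rw [← iha.1, ← ihb.1]
        constructor
        · rintro ⟨i, j, k, l, hij, hjk, hkl, hl, e1, e2, e3⟩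
          rw [sz] at hl
          rcases lt_or_ge i a.size with h | h
          · left
            have hl' : l < a.size := by
              by_contra hl'
              rw [vf1 h, vf2 (not_lt.1 hl')] at e1
              have := bb (l - a.size) (by omega)
              omega
            rw [vf1 h, vf1 hl'] at e1
            rw [vf1 hl', vf1 (i := j) (by omega)] at e2
            rw [vf1 (i := j) (by omega), vf1 (i := k) (by omega)] at e3
            exact ⟨i, j, k, l, hij, hjk, hkl, hl', by omega, by omega, by omega⟩
          · right
            rw [vf2 h, vf2 (i := l) (by omega)] at e1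
            rw [vf2 (i := l) (by omega), vf2 (i := j) (by omega)] at e2
            rw [vf2 (i := j) (by omega), vf2 (i := k) (by omega)] at e3
            exact ⟨i - a.size, j - a.size, k - a.size, l - a.size, by omega, by omega, by omega,
              by omega, e1, e2, e3⟩
        · rintro (⟨i, j, k, l, hij, hjk, hkl, hl, e1, e2, e3⟩ |
            ⟨i, j, k, l, hij, hjk, hkl, hl, e1, e2, e3⟩)
          · refine ⟨i, j, k, l, hij, hjk, hkl, by rw [sz]; omega, ?_, ?_, ?_⟩
            · rw [vf1 (i := i) (by omega), vf1 hl]; omega
            · rw [vf1 hl, vf1 (i := j) (by omega)]; omega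
            · rw [vf1 (i := j) (by omega), vf1 (i := k) (by omega)]; omega
          · refine ⟨a.size + i, a.size + j, a.size + k, a.size + l, by omega, by omega, by omega,
              by rw [sz]; omega, ?_, ?_, ?_⟩ <;>
            · rw [vf2 (Nat.le_add_right _ _), vf2 (Nat.le_add_right _ _), Nat.add_sub_cancel_left,
                Nat.add_sub_cancel_left]
              assumption
      · show _ ↔ (c3412 a ∨ c3412 b ∨ (c12 a ∧ c12 b))
        rw [← iha.2, ← ihb.2, ← (h2 a).1, ← (h2 b).1]
        constructor
        · rintro ⟨i, j, k, l, hij, hjk, hkl, hl, e1, e2, e3⟩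
          rw [sz] at hl
          rcases lt_or_ge l a.size with h | h
          · left
            rw [vf1 (i := k) (by omega), vf1 h] at e1
            rw [vf1 h, vf1 (i := i) (by omega)] at e2
            rw [vf1 (i := i) (by omega), vf1 (i := j) (by omega)] at e3
            exact ⟨i, j, k, l, hij, hjk, hkl, h, by omega, by omega, by omega⟩
          · right
            have hk : a.size ≤ k := by
              by_contra hk
              rw [vf1 (not_le.1 hk), vf2 h] at e1
              have := bb (l - a.size) (by omega)
              omega
            rw [vf2 hk, vf2 h] at e1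
            rcases lt_or_ge i a.size with hi | hi
            · right
              have hj : j < a.size := by
                by_contra hj
                rw [vf1 hi, vf2 (not_lt.1 hj)] at e3
                have := bb (j - a.size) (by omega)
                omega
              rw [vf1 hi, vf1 hj] at e3
              exact ⟨⟨i, j, hij, hj, by omega⟩, ⟨k - a.size, l - a.size, by omega, by omega, e1⟩⟩
            · left
              rw [vf2 h, vf2 hi] at e2
              rw [vf2 hi, vf2 (i := j) (by omega)] at e3
              exact ⟨i - a.size, j - a.size, k - a.size, l - a.size, by omega, by omega, by omega,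
                by omega, e1, e2, e3⟩
        · rintro (⟨i, j, k, l, hij, hjk, hkl, hl, e1, e2, e3⟩ |
            ⟨i, j, k, l, hij, hjk, hkl, hl, e1, e2, e3⟩ | ⟨⟨i, j, hij, hj, e1⟩, k, l, hkl, hl, e2⟩)
          · refine ⟨i, j, k, l, hij, hjk, hkl, by rw [sz]; omega, ?_, ?_, ?_⟩
            · rw [vf1 (i := k) (by omega), vf1 hl]; omega
            · rw [vf1 hl, vf1 (i := i) (by omega)]; omega
            · rw [vf1 (i := i) (by omega), vf1 (i := j) (by omega)]; omega
          · refine ⟨a.size + i, a.size + j, a.size + k, a.size + l, by omega, by omega, by omega,
              by rw [sz]; omega, ?_, ?_, ?_⟩ <;>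
            · rw [vf2 (Nat.le_add_right _ _), vf2 (Nat.le_add_right _ _), Nat.add_sub_cancel_left,
                Nat.add_sub_cancel_left]
              assumption
          · have hb := bb l hl
            refine ⟨i, j, a.size + k, a.size + l, hij, by omega, by omega, by rw [sz]; omega,
              ?_, ?_, ?_⟩
            · rw [vf2 (Nat.le_add_right _ _), vf2 (Nat.le_add_right _ _), Nat.add_sub_cancel_left,
                Nat.add_sub_cancel_left]
              exact e2
            · rw [vf2 (Nat.le_add_right _ _), Nat.add_sub_cancel_left, vf1 (i := i) (by omega)]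
              omega
            · rw [vf1 (i := i) (by omega), vf1 hj]
              omega

end Pool.Agent.T6.H5.RS.PAT4
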