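import Pool.Agent.T6.H5.RS.Defs

/-!
Project RS, module SEP: a separable permutation comes from a canonical tree.
-/

set_option autoImplicit false

namespace Pool.Agent.T6.H5.RS.SEP

open Pool.Agent.T6.H5.RS

theorem P2413_mono {m n : ℕ} {v : ℕ → ℕ} (h : m ≤ n) (hv : ¬ P2413 n v) : ¬ P2413 m v := by
  rintro ⟨i, j, k, l, h1, h2, h3, h4, h5⟩
  exact hv ⟨i, j, k, l, h1, h2, h3, by omega, h5⟩

theorem P3142_mono {m n : ℕ} {v : ℕ → ℕ} (h : m ≤ n) (hv : ¬ P3142 n v) : ¬ P3142 m v := by
  rintro ⟨i, j, k, l, h1, h2, h3, h4, h5⟩
  exact hv ⟨i, j, k, l, h1, h2, h3, by omega, h5⟩

/-- passing to a shifted piece -/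
theorem P2413_shift {m n : ℕ} {v : ℕ → ℕ} (p q : ℕ) (h : m + p ≤ n) (hv : ¬ P2413 n v) :
    ¬ P2413 m (fun i => v (i + p) - q) := by
  rintro ⟨i, j, k, l, h1, h2, h3, h4, h5, h6, h7⟩
  simp only at h5 h6 h7
  exact hv ⟨i + p, j + p, k + p, l + p, by omega, by omega, by omega, by omega, by omega,
    by omega, by omega⟩

theorem P3142_shift {m n : ℕ} {v : ℕ → ℕ} (p q : ℕ) (h : m + p ≤ n) (hv : ¬ P3142 n v) :
    ¬ P3142 m (fun i => v (i + p) - q) := by
  rintro ⟨i, j, k, l, h1, h2, h3, h4, h5, h6, h7⟩
  simp only at h5 h6 h7
  exact hv ⟨i + p, j + p, k + p, l + p, by omega, by omega, by omega, by omega, by omega,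
    by omega, by omega⟩

theorem sep (hB : StmBND) (hS : StmSPL) : StmSEP := by
  classical
  intro n
  induction n using Nat.strong_induction_on with
  | _ n ih =>
    intro v hn hlt hinj h2413 h3142
    rcases Nat.lt_or_ge n 2 with hn2 | hn2
    · obtain rfl : n = 1 := by omega
      refine ⟨T.leaf, trivial, rfl, ?_⟩
      intro i hi
      have := hlt i hi
      simp only [T.val]
      omega
    rcases hS n v hn2 hlt hinj h2413 h3142 with hcut | hcut
    · -- sum cut
      let p := Nat.find hcut
      obtain ⟨hp0, hpn, hp⟩ : 0 < p ∧ p < n ∧ ∀ i < n, (i < p ↔ v i < p) := Nat.find_spec hcut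
      have hmin : ∀ q < p, ¬ (0 < q ∧ q < n ∧ ∀ i < n, (i < q ↔ v i < q)) :=
        fun q hq => Nat.find_min hcut hq
      obtain ⟨a, ha1, ha2, ha3⟩ := ih p hpn v hp0 (fun i hi => (hp i (by omega)).1 hi)
        (fun i hi j hj => hinj i (by omega) j (by omega)) (P2413_mono hpn.le h2413)
        (P3142_mono hpn.le h3142)
      have hge : ∀ i, p ≤ i → i < n → p ≤ v i := by
        intro i hi hin
        by_contra hc
        have := (hp i hin).2 (by omega)
        omega
      obtain ⟨b, hb1, hb2, hb3⟩ := ih (n - p) (by omega) (fun i => v (i + p) - p) (by omega)
        (by
          intro i hi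
          have := hlt (i + p) (by omega)
          have := hge (i + p) (by omega) (by omega)
          omega)
        (by
          intro i hi j hj hij
          have h1 := hge (i + p) (by omega) (by omega)
          have h2 := hge (j + p) (by omega) (by omega)
          have := hinj (i + p) (by omega) (j + p) (by omega) (by omega)
          omega)
        (P2413_shift p p (by omega) h2413) (P3142_shift p p (by omega) h3142)
      refine ⟨T.node true a b, ⟨?_, ha1, hb1⟩, ?_, ?_⟩
      · intro hN
        cases a with
        | leaf => exact hN
        | node s a1 b1 =>
          have hs : s = true := hN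
          subst hs
          have q1 := (hB a1).1
          have q2 := (hB b1).1
          simp only [T.size] at ha2
          apply hmin a1.size (by omega)
          refine ⟨q1, by omega, ?_⟩
          intro i hi
          by_cases hip : i < p
          · have h := ha3 i hip
            simp only [T.val] at h
            by_cases hia : i < a1.size
            · rw [if_pos hia] at h
              have := (hB a1).2.1 i hia
              omega
            · rw [if_neg hia] at h
              omega
          · have := hge i (by omega) hi
            omega
      · simp only [T.size]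
        omega
      · intro i hi
        simp only [T.val]
        by_cases hia : i < p
        · rw [if_pos (by omega)]
          exact ha3 i hia
        · rw [if_neg (by omega), ha2, hb3 (i - p) (by omega)]
          have h1 : i - p + p = i := by omega
          have h2 := hge i (by omega) hi
          simp only [h1]
          omega
    · -- skew cut
      let p := Nat.find hcut
      obtain ⟨hp0, hpn, hp⟩ : 0 < p ∧ p < n ∧ ∀ i < n, (i < p ↔ n - p ≤ v i) :=
        Nat.find_spec hcut
      have hmin : ∀ q < p, ¬ (0 < q ∧ q < n ∧ ∀ i < n, (i < q ↔ n - q ≤ v i)) :=
        fun q hq => Nat.find_min hcut hq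
      have hlow : ∀ i < p, n - p ≤ v i := fun i hi => (hp i (by omega)).1 hi
      have hge : ∀ i, p ≤ i → i < n → v i < n - p := by
        intro i hi hin
        by_contra hc
        have := (hp i hin).2 (by omega)
        omega
      obtain ⟨a, ha1, ha2, ha3⟩ := ih p hpn (fun i => v (i + 0) - (n - p)) hp0
        (fun i hi => by
          have := hlt i (by omega)
          have := hlow i hi
          simp only [Nat.add_zero]
          omega)
        (fun i hi j hj hij => by
          simp only [Nat.add_zero] at hij
          have h1 := hlow i hi
          have h2 := hlow j hj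
          exact hinj i (by omega) j (by omega) (by omega))
        (P2413_shift 0 (n - p) (by omega) h2413)
        (P3142_shift 0 (n - p) (by omega) h3142)
      obtain ⟨b, hb1, hb2, hb3⟩ := ih (n - p) (by omega) (fun i => v (i + p) - 0) (by omega)
        (by
          intro i hi
          have := hge (i + p) (by omega) (by omega)
          omega)
        (by
          intro i hi j hj hij
          have := hinj (i + p) (by omega) (j + p) (by omega) (by omega)
          omega)
        (P2413_shift p 0 (by omega) h2413) (P3142_shift p 0 (by omega) h3142)
      simp only [Nat.add_zero, Nat.sub_zero] at ha3 hb3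
      refine ⟨T.node false a b, ⟨?_, ha1, hb1⟩, ?_, ?_⟩
      · intro hN
        cases a with
        | leaf => exact hN
        | node s a1 b1 =>
          have hs : s = false := hN
          subst hs
          have q1 := (hB a1).1
          have q2 := (hB b1).1
          simp only [T.size] at ha2
          apply hmin a1.size (by omega)
          refine ⟨q1, by omega, ?_⟩
          intro i hi
          by_cases hip : i < p
          · have h := ha3 i hip
            have h' := hlow i hip
            simp only [T.val] at h
            by_cases hia : i < a1.size
            · rw [if_pos hia] at h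
              omega
            · rw [if_neg hia] at h
              have := (hB b1).2.1 (i - a1.size) (by omega)
              omega
          · have := hge i (by omega) hi
            omega
      · simp only [T.size]
        omega
      · intro i hi
        simp only [T.val]
        by_cases hia : i < p
        · rw [if_pos (by omega), ha3 i hia, hb2]
          have := hlow i hia
          omega
        · rw [if_neg (by omega), ha2, hb3 (i - p) (by omega)]
          have h1 : i - p + p = i := by omega
          rw [h1]

end Pool.Agent.T6.H5.RS.SEP
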